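import Pool.Agent.Helper43.Gm.Goals2
import Pool.Agent.Helper18.Tw.Win

/-! # Packet H0: from `Takes` to `GoodFor` -/

set_option autoImplicit false

namespace Pool.Agent.Helper43.Gm.PkH0

open Finset Pool.Agent.Lead.Sh
open Helper18.Cusp (GoodFor Concl Red kap rr)
open Helper18.Tw (Hgt)
open Pool.Agent.Lead.Rw (Ind')

theorem goalH0 : GoalH0 := by
  intro D D' hsub hcard s m hm hs h9 W Z hT hwin
  obtain ⟨N, fs, hNf, h1, h0, h2⟩ := Pool.Agent.Lead.Rw.split_mult hm hs
  have hN : 10 ≤ N := by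
    by_contra hcon
    rcases Nat.lt_or_ge 9 (N + fs) with h3 | h3
    · have := h1 9 (by omega) h3; omega
    · have := h0 9 h3; omega
  rw [Pool.Agent.Lead.Rw.card_simple hNf h1 h0 h2, Helper18.Tw.sum_Ico_eq hNf h0] at hwin
  rw [GoodFor, Helper18.Tw.rows_Ico_eq hNf h0, Helper18.Tw.sum_Ico_eq hNf h0]
  have hSN : ∑ i ∈ Ico 9 (N + fs), Nat.choose (m i + 1) 2 =
      ∑ i ∈ Ico 9 N, Nat.choose (m i + 1) 2 + fs :=
    Pool.Agent.Lead.Rw.sum_simple (by omega) h1
  have hle9 : ∀ k, 9 ≤ k → m k ≤ m 9 := fun k hk => hm hk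
  have hpos : ∀ k, 9 ≤ k → k < N + fs → 1 ≤ m k := by
    intro k _ hk
    rcases Nat.lt_or_ge k N with h | h
    · have := h2 k h; omega
    · rw [h1 k h hk]
  rcases hwin with hw | hw
  · rw [hSN] at hw
    have hw' : ∑ i ∈ Ico 9 N, Nat.choose (m i + 1) 2 + Z ≤ D'.card := by
      zify
      push_cast at hw
      have : (D.card : ℤ) ≤ D'.card + 1 := by exact_mod_cast hcard
      linarith
    have hi : Ind' D' (rows m (Ico 9 N)) := hT.2 m 9 N (by omega)
      (fun k hk1 hk2 => ⟨hpos k hk1 (by omega), hle9 k hk1⟩) hw'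
    have hi2 := Pool.Agent.Lead.Rw.ind'_ext (by omega : 9 ≤ N) h1 (hi.mono hsub)
    rw [card_rows] at hi2
    exact ⟨hi2.2, fun h => (hi2.1 h).ind⟩
  · have hw' : W + (m 9 + 1).choose 2 + D.card ≤ ∑ i ∈ Ico 9 (N + fs), Nat.choose (m i + 1) 2 := by
      zify
      push_cast at hw
      linarith
    have hchp : 1 ≤ (m 9 + 1).choose 2 := Nat.choose_pos (by omega)
    have hcc : D'.card ≤ D.card := card_le_card hsub
    constructor
    · intro _
      obtain ⟨t, ht⟩ : ∃ t, N + fs = t + 1 := ⟨N + fs - 1, by omega⟩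
      rw [ht] at hw' ⊢
      rw [sum_Ico_succ_top (by omega)] at hw'
      have hlast : (m t + 1).choose 2 ≤ (m 9 + 1).choose 2 :=
        Nat.choose_le_choose 2 (by have := hle9 t (by omega); omega)
      apply Helper18.Tw.inj_one_more hsub hcard (by omega) (hpos t (by omega) (by omega))
      exact hT.1 m 9 t (by omega)
        (fun k hk1 hk2 => ⟨hpos k hk1 (by omega), hle9 k hk1⟩) (by omega)
    · intro hc
      omega

end Pool.Agent.Helper43.Gm.PkH0
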